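import Pool.Agent.Helper45.HS.GoalsC

/-! HS: Calabi's formula `S_LAPS`. -/

open Complex Metric Set Filter Topology MeasureTheory
open scoped ContDiff ComplexConjugate ComplexOrder Manifold Matrix

namespace Pool.Agent.Helper68.HS

open Pool.Agent.Helper95.Lin Pool.Agent.Helper16.Abund Pool.Agent.Helper92.Orb
  Pool.Agent.Helper10.SP Pool.Agent.Helper95.RK Pool.Agent.Helper57.HS Pool.Agent.Helper95.HS
  Pool.Agent.Helper15.HS Pool.Agent.Helper45.HS

/-! ## Algebra of the pairing -/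

section pairing
variable {n : ℕ} {Q : Matrix (Fin n) (Fin n) ℂ}

theorem ipA_zero_left (h : S_IPA) (hQ : Q.PosDef) (Y : Fin n → Matrix (Fin n) (Fin n) ℂ) :
    ipA Q (fun _ => 0) Y = 0 := by
  have h1 := ((h Q hQ).2.2.1 0 (fun _ => 0) Y).1
  simpa using h1

theorem ipA_zero_right (h : S_IPA) (hQ : Q.PosDef) (Y : Fin n → Matrix (Fin n) (Fin n) ℂ) :
    ipA Q Y (fun _ => 0) = 0 := by
  have h1 := ((h Q hQ).2.2.1 0 Y (fun _ => 0)).2
  simpa using h1

theorem ipA_sum_left (h : S_IPA) (hQ : Q.PosDef) {ι : Type*} (s : Finset ι)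
    (M : ι → Fin n → Matrix (Fin n) (Fin n) ℂ) (Y : Fin n → Matrix (Fin n) (Fin n) ℂ) :
    ipA Q (fun k => ∑ a ∈ s, M a k) Y = ∑ a ∈ s, ipA Q (M a) Y := by
  classical
  induction s using Finset.induction_on with
  | empty => simpa using ipA_zero_left h hQ Y
  | insert a s ha ih =>
    simp only [Finset.sum_insert ha]
    rw [← ih]
    exact ((h Q hQ).2.1 (M a) (fun k => ∑ a ∈ s, M a k) Y).1

theorem ipA_sum_right (h : S_IPA) (hQ : Q.PosDef) {ι : Type*} (s : Finset ι)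
    (M : ι → Fin n → Matrix (Fin n) (Fin n) ℂ) (Y : Fin n → Matrix (Fin n) (Fin n) ℂ) :
    ipA Q Y (fun k => ∑ a ∈ s, M a k) = ∑ a ∈ s, ipA Q Y (M a) := by
  classical
  induction s using Finset.induction_on with
  | empty => simpa using ipA_zero_right h hQ Y
  | insert a s ha ih =>
    simp only [Finset.sum_insert ha]
    rw [← ih]
    exact ((h Q hQ).2.1 (M a) (fun k => ∑ a ∈ s, M a k) Y).2

theorem ipA_sum2_left (h : S_IPA) (hQ : Q.PosDef) (c : Fin n → Fin n → ℂ)
    (M : Fin n → Fin n → Fin n → Matrix (Fin n) (Fin n) ℂ)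
    (Y : Fin n → Matrix (Fin n) (Fin n) ℂ) :
    ∑ p, ∑ q, c p q * ipA Q (M p q) Y = ipA Q (fun k => ∑ p, ∑ q, c p q • M p q k) Y := by
  rw [ipA_sum_left h hQ Finset.univ (fun p k => ∑ q, c p q • M p q k) Y]
  refine Finset.sum_congr rfl fun p _ => ?_
  rw [ipA_sum_left h hQ Finset.univ (fun q k => c p q • M p q k) Y]
  refine Finset.sum_congr rfl fun q _ => ?_
  exact (((h Q hQ).2.2.1 (c p q) (M p q) Y).1).symm

theorem ipA_sum2_right (h : S_IPA) (hQ : Q.PosDef) (c : Fin n → Fin n → ℂ)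
    (M : Fin n → Fin n → Fin n → Matrix (Fin n) (Fin n) ℂ)
    (Y : Fin n → Matrix (Fin n) (Fin n) ℂ) :
    ∑ p, ∑ q, conj (c p q) * ipA Q Y (M p q) = ipA Q Y (fun k => ∑ p, ∑ q, c p q • M p q k) := by
  rw [ipA_sum_right h hQ Finset.univ (fun p k => ∑ q, c p q • M p q k) Y]
  refine Finset.sum_congr rfl fun p _ => ?_
  rw [ipA_sum_right h hQ Finset.univ (fun q k => c p q • M p q k) Y]
  refine Finset.sum_congr rfl fun q _ => ?_
  exact (((h Q hQ).2.2.1 (c p q) Y (M p q)).2).symm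

end pairing

theorem actZ_sum {n : ℕ} {ι : Type*} (s : Finset ι) (c : ι → ℂ)
    (Z : ι → Matrix (Fin n) (Fin n) ℂ) (A : Fin n → Matrix (Fin n) (Fin n) ℂ) (l : Fin n) :
    actZ (∑ a ∈ s, c a • Z a) A l = ∑ a ∈ s, c a • actZ (Z a) A l := by
  unfold actZ
  simp only [Finset.sum_mul, Finset.mul_sum, Matrix.sum_apply, Matrix.smul_apply, smul_eq_mul,
    Finset.sum_smul, smul_add, smul_sub, Finset.sum_add_distrib, Finset.sum_sub_distrib,
    Finset.smul_sum, Matrix.smul_mul, Matrix.mul_smul, mul_smul]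
  congr 1
  exact Finset.sum_comm

/-! ## The covariant derivative -/

section nab
variable {n : ℕ} {W : Set (Cn n)} {x : Cn n} (Γ : Fin n → Cn n → Matrix (Fin n) (Fin n) ℂ)

theorem nab_congr (hW : IsOpen W) (hx : x ∈ W) {X Y : Fin n → Cn n → Matrix (Fin n) (Fin n) ℂ}
    (h : ∀ m, ∀ y ∈ W, X m y = Y m y) (p k : Fin n) : nab Γ p X k x = nab Γ p Y k x := by
  unfold nab
  rw [cdM_congr hW hx (h k) p, h k x hx]
  simp only [h _ x hx]

theorem nab_neg_add (hW : IsOpen W) (hx : x ∈ W) {X Y : Fin n → Cn n → Matrix (Fin n) (Fin n) ℂ}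
    (hX : ∀ m, SmM (X m) W) (hY : ∀ m, SmM (Y m) W) (p k : Fin n) :
    nab Γ p (fun m y => - X m y + Y m y) k x = - nab Γ p X k x + nab Γ p Y k x := by
  unfold nab
  have h1 := cdM_add hW hx (hX k).neg (hY k) p
  have h2 := cdM_neg hW hx (hX k) p
  rw [h1, h2]
  simp only [smul_add, smul_neg, Finset.sum_add_distrib, Finset.sum_neg_distrib, mul_add, add_mul,
    mul_neg, neg_mul]
  abel

theorem nab_Gam (H Q : Cn n → Matrix (Fin n) (Fin n) ℂ)
    (X : Fin n → Cn n → Matrix (Fin n) (Fin n) ℂ) (p k : Fin n) :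
    nab (Gam Q) p X k x = nab (Gam H) p X k x -
      (Adf H Q p x * X k x - X k x * Adf H Q p x) - ∑ m, Adf H Q p x k m • X m x := by
  unfold nab Adf
  simp only [Matrix.sub_apply, sub_smul, Finset.sum_sub_distrib, sub_mul, mul_sub]
  abel

end nab

/-- LAPS -/
theorem laps (hCRV : S_CRV) (hIPA : S_IPA) (hIPD : S_IPD) (hCOMM : S_COMM) (hBIA : S_BIA) :
    S_LAPS := by
  intro n W hW H Q η hH hHp hQ hQp hη hρ
  have cQ := hCRV W hW Q hQ hQp
  have cH := hCRV W hW H hH hHp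
  have sGQ : ∀ k, SmM (Gam Q k) W := fun k i j => cQ.2.1 k i j
  have sGH : ∀ k, SmM (Gam H k) W := fun k i j => cH.2.1 k i j
  have sA : ∀ k, SmM (Adf H Q k) W := fun k => (sGQ k).sub (sGH k)
  have sDA : ∀ q k, SmM (cdbM q (Adf H Q k)) W := fun q k => (sA k).cdbM hW q
  have I1 := hIPD W hW Q hQ hQp (Adf H Q) (Adf H Q) sA sA
  have sNA : ∀ q k, SmM (nab (Gam Q) q (Adf H Q) k) W := I1.2.1
  have sf := I1.1
  have hre : ∀ y, AQt H Q y = (ipA (Q y) (fun k => Adf H Q k y) (fun k => Adf H Q k y)).re :=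
    fun y => rfl
  refine ⟨?_, fun x hx => ?_⟩
  · have h1 := Complex.reCLM.contDiff.comp_contDiffOn (n := ∞) sf
    exact h1
  have hQx := hQp x hx
  -- the function is real
  have hreal : ∀ y ∈ W, ((AQt H Q y : ℝ) : ℂ) =
      ipA (Q y) (fun k => Adf H Q k y) (fun k => Adf H Q k y) := by
    intro y hy
    have h1 := ((hIPA (Q y) (hQp y hy)).2.2.2.1 (fun k => Adf H Q k y)).1
    refine Complex.ext ?_ ?_
    · rw [Complex.ofReal_re, hre]
    · rw [Complex.ofReal_im, h1]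
  have I2 : ∀ q, _ := fun q =>
    hIPD W hW Q hQ hQp (fun k => cdbM q (Adf H Q k)) (Adf H Q) (sDA q) sA
  have I3 : ∀ q, _ := fun q =>
    hIPD W hW Q hQ hQp (Adf H Q) (fun k => nab (Gam Q) q (Adf H Q) k) sA (sNA q)
  -- second derivatives
  have h2 : ∀ p q, LM (AQt H Q) x p q =
      (ipA (Q x) (fun k => nab (Gam Q) p (fun m => cdbM q (Adf H Q m)) k x)
          (fun k => Adf H Q k x) +
        ipA (Q x) (fun k => cdbM q (Adf H Q k) x) (fun k => cdbM p (Adf H Q k) x)) +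
      (ipA (Q x) (fun k => nab (Gam Q) p (Adf H Q) k x) (fun k => nab (Gam Q) q (Adf H Q) k x) +
        ipA (Q x) (fun k => Adf H Q k x)
          (fun k => cdbM p (nab (Gam Q) q (Adf H Q) k) x)) := by
    intro p q
    have e1 : LM (AQt H Q) x p q = cd p (cdb q fun y => ((AQt H Q y : ℝ) : ℂ)) x := rfl
    have e2 : ∀ y ∈ W, cdb q (fun y => ((AQt H Q y : ℝ) : ℂ)) y =
        ipA (Q y) (fun k => cdbM q (Adf H Q k) y) (fun k => Adf H Q k y) +
        ipA (Q y) (fun k => Adf H Q k y) (fun k => nab (Gam Q) q (Adf H Q) k y) := by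
      intro y hy
      rw [(cd_congr' hW hy hreal q).2]
      exact (I1.2.2 y hy q).2
    rw [e1, (cd_congr' hW hx e2 p).1]
    have e3 := ((Wirt.wirt W hW _ _ (I2 q).1 (I3 q).1).2.1 p x hx).1
    rw [e3, ((I2 q).2.2 x hx p).1, ((I3 q).2.2 x hx p).1]
  -- the sum
  have hconj : ∀ p q, conj ((Q x)⁻¹ q p) = (Q x)⁻¹ p q := by
    intro p q
    have h3 : ((Q x)⁻¹)ᴴ = (Q x)⁻¹ := hQx.inv.isHermitian
    have h4 := congrFun (congrFun h3 p) q
    rwa [Matrix.conjTranspose_apply] at h4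
  have htr : trL Q (AQt H Q) x = ∑ p, ∑ q, (Q x)⁻¹ q p * LM (AQt H Q) x p q := by
    unfold trL Matrix.trace
    simp only [Matrix.diag_apply, Matrix.mul_apply]
    rw [Finset.sum_comm]
  -- the first term
  have hD : ∀ q m, ∀ y ∈ W, cdbM q (Adf H Q m) y = - Rme Q m q y + Rme H m q y := by
    intro q m y hy
    have h5 := cdbM_sub hW hy (sGQ m) (sGH m) q
    have h6 : cdbM q (Adf H Q m) y = cdbM q (fun z => Gam Q m z - Gam H m z) y := rfl
    rw [h6, h5]
    unfold Rme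
    abel
  have sRQ : ∀ m q, SmM (Rme Q m q) W := fun m q => ((sGQ m).cdbM hW q).neg
  have sRH : ∀ m q, SmM (Rme H m q) W := fun m q => ((sGH m).cdbM hW q).neg
  have hBx := hBIA W hW Q η hQ hQp hη hρ x hx
  have hT : ∀ k, ∑ p, ∑ q, (Q x)⁻¹ q p • nab (Gam Q) p (fun m => cdbM q (Adf H Q m)) k x =
      TAk H Q η k x := by
    intro k
    have h7 : ∀ p q, nab (Gam Q) p (fun m => cdbM q (Adf H Q m)) k x =
        - nab (Gam Q) p (fun m => Rme Q m q) k x +
        (nab (Gam H) p (fun m => Rme H m q) k x -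
          (Adf H Q p x * Rme H k q x - Rme H k q x * Adf H Q p x) -
          ∑ m, Adf H Q p x k m • Rme H m q x) := by
      intro p q
      rw [nab_congr (Gam Q) hW hx (hD q) p k,
        nab_neg_add (Gam Q) hW hx (fun m => sRQ m q) (fun m => sRH m q) p k,
        nab_Gam H Q (fun m => Rme H m q) p k]
    simp only [h7, smul_add, smul_neg, Finset.sum_add_distrib, Finset.sum_neg_distrib]
    rw [hBx.2 k]
    unfold TAk
    rfl
  set A : Fin n → Matrix (Fin n) (Fin n) ℂ := fun k => Adf H Q k x with hAdef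
  have hS1 : ∑ p, ∑ q, (Q x)⁻¹ q p *
      ipA (Q x) (fun k => nab (Gam Q) p (fun m => cdbM q (Adf H Q m)) k x) A =
      ipA (Q x) (fun k => TAk H Q η k x) A := by
    rw [ipA_sum2_left hIPA hQx (fun p q => (Q x)⁻¹ q p)
      (fun p q k => nab (Gam Q) p (fun m => cdbM q (Adf H Q m)) k x) A]
    simp only [hT]
  -- the last term
  have hS4 : ∑ p, ∑ q, (Q x)⁻¹ q p *
      ipA (Q x) A (fun k => cdbM p (nab (Gam Q) q (Adf H Q) k) x) =
      ipA (Q x) A (fun k => TAk H Q η k x) +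
        ipA (Q x) A (fun l => actZ (-1 + η x * (Q x)⁻¹) A l) := by
    have h8 : ∀ p q, ipA (Q x) A (fun k => cdbM p (nab (Gam Q) q (Adf H Q) k) x) =
        ipA (Q x) A (fun k => nab (Gam Q) q (fun m => cdbM p (Adf H Q m)) k x) +
        ipA (Q x) A (fun k => actZ (Rme Q q p x) A k) := by
      intro p q
      have h9 : (fun k => cdbM p (nab (Gam Q) q (Adf H Q) k) x) =
          fun k => nab (Gam Q) q (fun m => cdbM p (Adf H Q m)) k x +
            actZ (Rme Q q p x) A k := by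
        funext k
        exact hCOMM W hW Q hQ hQp (Adf H Q) sA x hx p q k
      rw [h9]
      exact ((hIPA (Q x) hQx).2.1 (fun k => nab (Gam Q) q (fun m => cdbM p (Adf H Q m)) k x)
        (fun k => actZ (Rme Q q p x) A k) A).2
    simp only [h8, mul_add, Finset.sum_add_distrib]
    refine congrArg₂ (· + ·) ?_ ?_
    · have h10 : ∀ p q, (Q x)⁻¹ q p = conj ((Q x)⁻¹ p q) := fun p q => (hconj q p).symm
      rw [Finset.sum_comm]
      have h11 : ∀ q p, (Q x)⁻¹ q p *
          ipA (Q x) A (fun k => nab (Gam Q) q (fun m => cdbM p (Adf H Q m)) k x) =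
          conj ((Q x)⁻¹ p q) *
          ipA (Q x) A (fun k => nab (Gam Q) q (fun m => cdbM p (Adf H Q m)) k x) := by
        intro q p
        rw [← h10]
      simp only [h11]
      rw [ipA_sum2_right hIPA hQx (fun q p => (Q x)⁻¹ p q)
        (fun q p k => nab (Gam Q) q (fun m => cdbM p (Adf H Q m)) k x) A]
      simp only [hT]
    · have h11 : ∀ p q, (Q x)⁻¹ q p * ipA (Q x) A (fun k => actZ (Rme Q q p x) A k) =
          conj ((Q x)⁻¹ p q) * ipA (Q x) A (fun k => actZ (Rme Q q p x) A k) := by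
        intro p q
        rw [hconj q p]
      rw [Finset.sum_comm]
      simp only [h11]
      rw [ipA_sum2_right hIPA hQx (fun q p => (Q x)⁻¹ p q)
        (fun q p k => actZ (Rme Q q p x) A k) A]
      refine congrArg (ipA (Q x) A) (funext fun k => ?_)
      rw [← hBx.1]
      have h12 := actZ_sum Finset.univ (fun _ : Fin n => (1 : ℂ))
        (fun q => ∑ p, (Q x)⁻¹ p q • Rme Q q p x) A k
      simp only [one_smul] at h12
      rw [h12]
      refine Finset.sum_congr rfl fun q _ => ?_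
      exact (actZ_sum Finset.univ (fun p => (Q x)⁻¹ p q) (fun p => Rme Q q p x) A k).symm
  have hS2 := ((hIPA (Q x) hQx).2.2.2.2 fun q k => cdbM q (Adf H Q k) x).2
  have hS3 := ((hIPA (Q x) hQx).2.2.2.2 fun q k => nab (Gam Q) q (Adf H Q) k x).1
  have hcT : (ipA (Q x) A (fun k => TAk H Q η k x)).re =
      (ipA (Q x) (fun k => TAk H Q η k x) A).re := by
    rw [← (hIPA (Q x) hQx).1 (fun k => TAk H Q η k x) A, Complex.conj_re]
  rw [htr]
  simp only [h2, mul_add, Finset.sum_add_distrib]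
  rw [hS1, hS4]
  simp only [Complex.add_re]
  rw [hcT]
  linarith

end Pool.Agent.Helper68.HS
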