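import Pool.Agent.Helper57.HS.GoalsG

/-! HS: the global Schauder estimate `S_SCHG`. -/

open Complex Metric Set Filter Topology MeasureTheory
open scoped ContDiff ComplexConjugate ComplexOrder Manifold Matrix

namespace Pool.Agent.Helper68.HS

open Pool.Agent.Helper57.HS Pool.Agent.Helper95.Lin Pool.Agent.Helper16.Abund
  Pool.Agent.Helper92.Orb Pool.Agent.Helper10.SP Pool.Agent.Helper95.RK

universe u

theorem HB.mono {n : ℕ} {E : Type*} [NormedAddCommGroup E] {a : ℝ} {S : Set (Cn n)} {K K' : ℝ}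
    {f : Cn n → E} (h : HB a S K f) (hK : K ≤ K') : HB a S K' f := fun x hx y hy =>
  (h x hx y hy).trans (mul_le_mul_of_nonneg_right hK (Real.rpow_nonneg (norm_nonneg _) _))

theorem CB.mono {n : ℕ} {E : Type*} [NormedAddCommGroup E] {a : ℝ} {S : Set (Cn n)} {K K' : ℝ}
    {f : Cn n → E} (h : CB a S K f) (hK : K ≤ K') : CB a S K' f :=
  ⟨fun x hx => (h.1 x hx).trans hK, HB.mono h.2 hK⟩

theorem CB.subset {n : ℕ} {E : Type*} [NormedAddCommGroup E] {a : ℝ} {S S' : Set (Cn n)} {K : ℝ}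
    {f : Cn n → E} (h : CB a S K f) (hS : S' ⊆ S) : CB a S' K f :=
  ⟨fun x hx => h.1 x (hS hx), fun x hx y hy => h.2 x (hS hx) y (hS hy)⟩

theorem C2B.mono {n : ℕ} {a : ℝ} {S : Set (Cn n)} {K K' : ℝ}
    {f : Cn n → ℝ} (h : C2B a S K f) (hK : K ≤ K') : C2B a S K' f :=
  ⟨fun x hx => ⟨(h.1 x hx).1.trans hK, (h.1 x hx).2.trans hK⟩, CB.mono h.2 hK⟩

/-- A locally Lipschitz function satisfies a Hölder condition on a compact set. -/
theorem exists_HB {n : ℕ} {E : Type*} [NormedAddCommGroup E] [NormedSpace ℝ E] {T C : Set (Cn n)}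
    (hT : IsOpen T) (hC : IsCompact C) (hCT : C ⊆ T) {f : Cn n → E} (hf : ContDiffOn ℝ 1 f T)
    {a : ℝ} (ha : 0 < a) (ha1 : a < 1) : ∃ K, HB a C K f := by
  have h1 : LocallyLipschitzOn C f := by
    intro x hx
    obtain ⟨K, t, ht, h⟩ :=
      ((hf x (hCT hx)).contDiffAt (hT.mem_nhds (hCT hx))).exists_lipschitzOnWith
    exact ⟨K, t, mem_nhdsWithin_of_mem_nhds ht, h⟩
  obtain ⟨K, hK⟩ := h1.exists_lipschitzOnWith_of_compact hC
  obtain ⟨R, hR⟩ := hC.isBounded.exists_norm_le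
  refine ⟨K * (2 * R) ^ (1 - a), fun x hx y hy => ?_⟩
  have h2 := hK.dist_le_mul x hx y hy
  rw [dist_eq_norm, dist_eq_norm] at h2
  refine h2.trans ?_
  rcases (norm_nonneg (x - y)).eq_or_lt with h0 | h0
  · rw [← h0, Real.zero_rpow ha.ne', mul_zero, mul_zero]
  · have h3 : ‖x - y‖ ≤ 2 * R := by
      have := norm_sub_le x y
      linarith [hR x hx, hR y hy]
    have h4 : ‖x - y‖ = ‖x - y‖ ^ (1 - a) * ‖x - y‖ ^ a := by
      rw [← Real.rpow_add h0]
      simp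
    have h5 : ‖x - y‖ ≤ (2 * R) ^ (1 - a) * ‖x - y‖ ^ a := by
      calc ‖x - y‖ = ‖x - y‖ ^ (1 - a) * ‖x - y‖ ^ a := h4
        _ ≤ (2 * R) ^ (1 - a) * ‖x - y‖ ^ a :=
          mul_le_mul_of_nonneg_right (Real.rpow_le_rpow h0.le h3 (by linarith))
            (Real.rpow_nonneg h0.le _)
    calc (K : ℝ) * ‖x - y‖ ≤ K * ((2 * R) ^ (1 - a) * ‖x - y‖ ^ a) :=
          mul_le_mul_of_nonneg_left h5 K.2
      _ = K * (2 * R) ^ (1 - a) * ‖x - y‖ ^ a := by ring

/-- A smooth function satisfies some `C2B` bound on a compact set. -/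
theorem exists_C2B {n : ℕ} {T C : Set (Cn n)} (hT : IsOpen T) (hC : IsCompact C) (hCT : C ⊆ T)
    {v : Cn n → ℝ} (hv : ContDiffOn ℝ ∞ v T) {a : ℝ} (ha : 0 < a) (ha1 : a < 1) :
    ∃ B, C2B a C B v := by
  have h1 : ContDiffOn ℝ ∞ (fderiv ℝ v) T := hv.fderiv_of_isOpen hT (by simp)
  have h2 : ContDiffOn ℝ ∞ (D2 v) T := h1.fderiv_of_isOpen hT (by simp)
  obtain ⟨K0, hK0⟩ := hC.exists_bound_of_continuousOn (hv.continuousOn.mono hCT)
  obtain ⟨K1, hK1⟩ := hC.exists_bound_of_continuousOn (h1.continuousOn.mono hCT)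
  have h2c : ContinuousOn (D2 v) C := h2.continuousOn.mono hCT
  obtain ⟨K2, hK2⟩ := IsCompact.exists_bound_of_continuousOn
    (E := Cn n →L[ℝ] Cn n →L[ℝ] ℝ) hC (f := D2 v) h2c
  obtain ⟨K3, hK3⟩ := exists_HB hT hC hCT (h2.of_le (by simp)) ha ha1
  refine ⟨max (max K0 K1) (max K2 K3), fun x hx => ⟨?_, ?_⟩, fun x hx => ?_, ?_⟩
  · exact (hK0 x hx).trans ((le_max_left _ _).trans (le_max_left _ _))
  · exact (hK1 x hx).trans ((le_max_right _ _).trans (le_max_left _ _))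
  · exact (hK2 x hx).trans ((le_max_left _ _).trans (le_max_right _ _))
  · exact HB.mono hK3 ((le_max_right _ _).trans (le_max_right _ _))

theorem C2B_of_tendsto {n : ℕ} {a : ℝ} {S : Set (Cn n)} {v : Cn n → ℝ} {c : ℝ} {B : ℕ → ℝ}
    (hB : Tendsto B atTop (𝓝 c)) (h : ∀ j, C2B a S (B j) v) : C2B a S c v :=
  ⟨fun x hx => ⟨ge_of_tendsto' hB fun j => ((h j).1 x hx).1,
    ge_of_tendsto' hB fun j => ((h j).1 x hx).2⟩,
    fun x hx => ge_of_tendsto' hB fun j => (h j).2.1 x hx,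
    fun x hx y hy => ge_of_tendsto' (hB.mul_const _) fun j => (h j).2.2 x hx y hy⟩

/-- SCHG -/
theorem schg (hTRN : S_TRN.{u}) (hINTG : S_INTG) (hLOCS : S_LOCS) : S_SCHG.{u} := by
  intro n T G _ R hE C₁ hF
  obtain ⟨h1T, h1c, h1m⟩ := hF
  obtain ⟨C₂, h2c, h12, h2T⟩ := exists_compact_between h1c hE.isOpen h1T
  obtain ⟨C', h3c, h23, h3T⟩ := exists_compact_between h2c hE.isOpen h2T
  have h12' : C₁ ⊆ C₂ := h12.trans interior_subset
  have h23' : C₂ ⊆ C' := h23.trans interior_subset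
  refine ⟨C', h3T, h3c, h12'.trans h23, fun a lam A₀ ha ha1 hlam hA₀ => ?_⟩
  obtain ⟨KT, hKT, hT⟩ := hTRN T R hE C₁ ⟨h1T, h1c, h1m⟩ C' h3T h3c a ha ha1.le
  obtain ⟨KL, hKL, hL⟩ := hLOCS n C₁ C₂ a lam A₀ h1c h2c h12 ha ha1 hlam hA₀
  obtain ⟨KI, hKI, hI⟩ := hINTG n C₂ C' a (1 / (2 * (KL + 1) * KT)) h2c h3c h23 ha ha1
    (by positivity)
  refine ⟨2 * ((KL + 1) * (KI + 1)), by positivity, fun A hell hA v hv c M hc hM hCB => ?_⟩
  obtain ⟨x₀, hx₀⟩ : C₁.Nonempty := by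
    obtain ⟨x, hx⟩ := hE.nonempty
    obtain ⟨γ, y, hy, -⟩ := h1m x hx
    exact ⟨y, interior_subset hy⟩
  have hM0 : 0 ≤ M := (abs_nonneg _).trans (hM x₀ (h23' (h12' hx₀)))
  have hθ : 1 / (2 * (KL + 1) * KT) * KT = 1 / (2 * (KL + 1)) := by
    field_simp
  have hv2 : ContDiffOn ℝ 2 v T := hv.1.of_le (WithTop.coe_le_coe.2 (le_top : (2 : ℕ∞) ≤ ⊤))
  -- the improvement
  have key : ∀ B, C2B a C₁ B v → C2B a C₁ ((KL + 1) * (KI + 1) * M + B / 2) v := by
    intro B hB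
    have hB0 : 0 ≤ B := (norm_nonneg _).trans (hB.1 x₀ hx₀).1
    have e1 := hT v hv2 hv.2 B hB
    have e2 := hI v (hv2.mono (interior_subset.trans h3T)) M (KT * B) hM e1.2.1
    have e3 := hL A (fun x hx => hell x (h23' hx)) (fun i j => CB.subset (hA i j) h23') v
      (hv.1.mono (interior_subset.trans h2T)) c M _ hc e2 (CB.subset hCB h23')
    have hN : 1 / (2 * (KL + 1) * KT) * (KT * B) + KI * M =
        1 / (2 * (KL + 1)) * B + KI * M := by
      rw [← mul_assoc, hθ]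
    rw [hN] at e2 e3
    have hq : 1 / (2 * (KL + 1)) * B ≤ B / 2 := by
      rw [div_mul_eq_mul_div, one_mul]
      refine div_le_div_of_nonneg_left hB0 two_pos ?_
      linarith
    have hq2 : KL * (1 / (2 * (KL + 1)) * B) ≤ B / 2 := by
      have : KL * (1 / (2 * (KL + 1)) * B) = KL / (KL + 1) * (B / 2) := by
        field_simp
      rw [this]
      have h4 : KL / (KL + 1) ≤ 1 := by
        rw [div_le_one (by linarith)]
        linarith
      nlinarith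
    have hKM : 0 ≤ KL * KI * M := by positivity
    have hKM2 : 0 ≤ KL * M := by positivity
    have hKM3 : 0 ≤ KI * M := by positivity
    refine ⟨fun x hx => ⟨?_, ?_⟩, CB.mono e3 ?_⟩
    · refine (hM x (h23' (h12' hx))).trans ?_
      nlinarith
    · refine ((e2.1 x (h12' hx)).2).trans ?_
      nlinarith
    · nlinarith
  obtain ⟨B₀, hB₀⟩ := exists_C2B hE.isOpen h1c h1T hv.1 ha ha1
  have hit : ∀ j : ℕ, C2B a C₁ (2 * ((KL + 1) * (KI + 1)) * M + B₀ * (1 / 2) ^ j) v := by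
    intro j
    induction j with
    | zero =>
      refine C2B.mono hB₀ ?_
      have : 0 ≤ 2 * ((KL + 1) * (KI + 1)) * M := by positivity
      rw [pow_zero, mul_one]
      linarith
    | succ j ih =>
      have h5 := key _ ih
      have h6 : (KL + 1) * (KI + 1) * M + (2 * ((KL + 1) * (KI + 1)) * M + B₀ * (1 / 2) ^ j) / 2 =
          2 * ((KL + 1) * (KI + 1)) * M + B₀ * (1 / 2) ^ (j + 1) := by
        rw [pow_succ]
        ring
      rw [h6] at h5
      exact h5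
  refine C2B_of_tendsto ?_ hit
  have h7 : Tendsto (fun j : ℕ => (1 / 2 : ℝ) ^ j) atTop (𝓝 0) :=
    tendsto_pow_atTop_nhds_zero_of_lt_one (by norm_num) (by norm_num)
  have h8 := (h7.const_mul B₀).const_add (2 * ((KL + 1) * (KI + 1)) * M)
  rw [mul_zero, add_zero] at h8
  exact h8

end Pool.Agent.Helper68.HS
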